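import Mathlib

/-!
# The interchange process: definitions (project IP, MP_e2dfad_pr)

`V` is the set of vertices and also the set of labels.  A configuration is `s : Equiv.Perm V`
(label `i` sits at the vertex `s i`).  The transposition of the vertices `x, y` sends `s` to
`swap x y * s`; a permutation `g` of the labels sends `s` to `s * g`.
-/

namespace Pool.Agent.Helper91.IP

open Finset Equiv Matrix

variable {V : Type} [Fintype V] [DecidableEq V]

/-- squared norm of a function on permutations -/
def nsq (f : Perm V → ℝ) : ℝ := ∑ s, f s ^ 2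

/-- correlation of `f` with its translate by `g` (acting on the vertices) -/
def cor (f : Perm V → ℝ) (g : Perm V) : ℝ := ∑ s, f s * f (g * s)

/-- `‖f - τ_{xy} f‖²` -/
def dif (f : Perm V → ℝ) (x y : V) : ℝ := ∑ s, (f s - f (swap x y * s)) ^ 2

/-- the Dirichlet form of the interchange process with rates `w x y` (`x ≠ y`, `w` symmetric) -/
noncomputable def En (w : V → V → ℝ) (f : Perm V → ℝ) : ℝ :=
  (1 / 4) * ∑ x, ∑ y, w x y * dif f x y

/-- `12 ⟨f, E_J f⟩` for `J = {a, b, c, d}`: `E_J` is the projection on the vectors fixed by the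
four group on `J`, minus the projection on the vectors fixed by `Alt J`. -/
def e4 (f : Perm V → ℝ) (a b c d : V) : ℝ :=
  2 * (nsq f + cor f (swap a b * swap c d) + cor f (swap a c * swap b d)
    + cor f (swap a d * swap b c))
  - 2 * (cor f (swap a b * swap b c) + cor f (swap a b * swap b d)
    + cor f (swap a c * swap c d) + cor f (swap b c * swap c d))

/-- product of two kernels -/
def kmul (P Q : V → V → ℝ) : V → V → ℝ := fun x y => ∑ z, P x z * Q z y

/-- `w` is a symmetric nonnegative rate function with spectral gap at least `γ > 0` -/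
structure Gap (w : V → V → ℝ) (γ : ℝ) : Prop where
  symm : ∀ x y, w x y = w y x
  nonneg : ∀ x y, 0 ≤ w x y
  pos : 0 < γ
  gap : ∀ u : V → ℝ, ∑ x, u x = 0 →
    γ * ∑ x, u x ^ 2 ≤ (1 / 2) * ∑ x, ∑ y, w x y * (u x - u y) ^ 2

/-- symmetric stochastic kernels, positive semidefinite, with norm at most `ε` off the constants -/
structure Smooth (Q : V → V → ℝ) (ε : ℝ) : Prop where
  symm : ∀ x y, Q x y = Q y x
  nonneg : ∀ x y, 0 ≤ Q x y
  row : ∀ x, ∑ y, Q x y = 1
  psd : ∀ u : V → ℝ, 0 ≤ ∑ x, ∑ y, u x * Q x y * u y
  small : ∀ u : V → ℝ, ∑ x, u x = 0 → ∑ x, ∑ y, u x * Q x y * u y ≤ ε * ∑ x, u x ^ 2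

/-- functions of the positions of the labels in `S` -/
def Fs (S : Finset V) : Submodule ℝ (Perm V → ℝ) where
  carrier := {f | ∀ s s' : Perm V, (∀ i ∈ S, s i = s' i) → f s = f s'}
  add_mem' := fun {f g} hf hg s s' h => by
    change f s + g s = f s' + g s'
    rw [hf s s' h, hg s s' h]
  zero_mem' := fun _ _ _ => rfl
  smul_mem' := fun c f hf s s' h => by
    change c * f s = c * f s'
    rw [hf s s' h]

/-- functions of level at most `j`: sums of functions of the positions of `j` labels -/
def Vl (V : Type) [Fintype V] [DecidableEq V] (j : ℕ) : Submodule ℝ (Perm V → ℝ) :=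
  ⨆ S : {S : Finset V // S.card ≤ j}, Fs (S : Finset V)

/-- `f` is orthogonal to the subspace `U` -/
def Orth (f : Perm V → ℝ) (U : Submodule ℝ (Perm V → ℝ)) : Prop :=
  ∀ g ∈ U, ∑ s, f s * g s = 0

/-- the functions orthogonal to `U` -/
def Oc (U : Submodule ℝ (Perm V → ℝ)) : Submodule ℝ (Perm V → ℝ) where
  carrier := {f | Orth f U}
  add_mem' := fun {f g} hf hg h hh => by
    have h1 := hf h hh
    have h2 := hg h hh
    simp only [Pi.add_apply, add_mul, sum_add_distrib, h1, h2, add_zero]
  zero_mem' := fun h _ => by simp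
  smul_mem' := fun c f hf h hh => by
    have h1 := hf h hh
    simp only [Pi.smul_apply, smul_eq_mul, mul_assoc, ← mul_sum, h1, mul_zero]

/-- four distinct points -/
def D4 (i j k l : V) : Prop := i ≠ j ∧ i ≠ k ∧ i ≠ l ∧ j ≠ k ∧ j ≠ l ∧ k ≠ l

instance (i j k l : V) : Decidable (D4 i j k l) := by unfold D4; infer_instance

/-! ### Matrices on the configurations -/

/-- `(Lm g *ᵥ f) s = f (g * s)` -/
def Lm (g : Perm V) : Matrix (Perm V) (Perm V) ℝ := fun s s' => if s' = g * s then 1 else 0

/-- `(Rm g *ᵥ f) s = f (s * g)` -/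
def Rm (g : Perm V) : Matrix (Perm V) (Perm V) ℝ := fun s s' => if s' = s * g then 1 else 0

/-- minus the generator of the interchange process with rates `w` -/
noncomputable def Am (w : V → V → ℝ) : Matrix (Perm V) (Perm V) ℝ :=
  (1 / 2 : ℝ) • ∑ x, ∑ y, w x y • (1 - Lm (swap x y))

/-- the heat kernel of the interchange process -/
noncomputable def Kt (w : V → V → ℝ) (t : ℝ) : Matrix (Perm V) (Perm V) ℝ :=
  NormedSpace.exp (-(t • Am w))

/-- the permutations of the labels which fix every label in `S` -/
def fixS (S : Finset V) : Finset (Perm V) := univ.filter fun g => ∀ i ∈ S, g i = i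

/-- the projection on `Fs S` -/
noncomputable def PF (S : Finset V) : Matrix (Perm V) (Perm V) ℝ :=
  ((fixS S).card : ℝ)⁻¹ • ∑ g ∈ fixS S, Rm g

/-- the average of the commutators of the permutations of the labels outside `S` -/
noncomputable def Kap (S : Finset V) : Matrix (Perm V) (Perm V) ℝ :=
  (((fixS S).card : ℝ) ^ 2)⁻¹ • ∑ a ∈ fixS S, ∑ b ∈ fixS S, Rm (a * b * a⁻¹ * b⁻¹)

/-! ### Finite Markov chains with symmetric rates -/

section chains

variable {X : Type} [Fintype X] [DecidableEq X]

/-- generator matrix of the chain that jumps from `x` to `y ≠ x` at rate `r x y` -/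
def genM (r : X → X → ℝ) : Matrix X X ℝ :=
  fun x y => if x = y then -∑ z ∈ univ.erase x, r x z else r x y

/-- transition kernel at time `t` -/
noncomputable def ker (r : X → X → ℝ) (t : ℝ) : Matrix X X ℝ := NormedSpace.exp (t • genM r)

/-- total variation distance at time `t`, started from `x`, to the uniform distribution -/
noncomputable def tv (r : X → X → ℝ) (t : ℝ) (x : X) : ℝ :=
  (1 / 2) * ∑ y, |ker r t x y - 1 / Fintype.card X|

/-- total variation mixing time (threshold `1/4`) of a chain with uniform stationary law -/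
noncomputable def tmix (r : X → X → ℝ) : ℝ := sInf {t : ℝ | 0 ≤ t ∧ ∀ x, tv r t x ≤ 1 / 4}

/-- spectral gap of the chain with symmetric rates `r` (minimum of the Rayleigh quotients on the
functions of mean zero) -/
noncomputable def gapR (r : X → X → ℝ) : ℝ :=
  sInf {a : ℝ | ∃ u : X → ℝ, u ≠ 0 ∧ ∑ x, u x = 0 ∧
    a = ((1 / 2) * ∑ x, ∑ y, r x y * (u x - u y) ^ 2) / ∑ x, u x ^ 2}

/-- relaxation time -/
noncomputable def trel (r : X → X → ℝ) : ℝ := 1 / gapR r

end chains

/-- rates of the random walk on a graph: rate one along every edge -/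
def srw (G : SimpleGraph V) [DecidableRel G.Adj] : V → V → ℝ := fun x y => if G.Adj x y then 1 else 0

open Classical in
/-- rates of the interchange process on a graph; a state is a bijection from the vertices to the
labels `0, …, n - 1`, and every edge `{u, v}` swaps the labels at `u` and `v` at rate one -/
noncomputable def ip (G : SimpleGraph V) :
    (V ≃ Fin (Fintype.card V)) → (V ≃ Fin (Fintype.card V)) → ℝ :=
  fun σ σ' => if ∃ u v, G.Adj u v ∧ σ' = (swap u v).trans σ then 1 else 0

end Pool.Agent.Helper91.IP
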