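import Pool.Agent.Helper91.IP.Defs
import Pool.Agent.Helper28.IP.A1
import Pool.Agent.Helper8.IP.XSq
import Pool.Agent.Helper74.IP.PureEnergy
import Pool.Agent.Helper85.IP.C2
import Pool.Agent.Helper12.IP.C3a
import Pool.Agent.Helper41.IP.FinrankVl
import Pool.Agent.Helper61.IP.Jucys
import Pool.Agent.Helper62.IP.E1
import Pool.Agent.Helper90.IP.E2
import Pool.Agent.Helper38.IP.E3
import Pool.Agent.Helper83.IP.E4
import Pool.Agent.Helper88.IP.E7
import Pool.Agent.Helper77.IP.E8
import Pool.Agent.Helper79.IP.E9a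
import Pool.Agent.Helper75.IP.KerIp
import Pool.Agent.Helper76.IP.GapSrw

/-!
# Project IP: the statements proved in layer 1
-/

namespace Pool.Agent.Helper91.IP

open Finset Equiv Matrix

variable {V : Type} [Fintype V] [DecidableEq V]

alias e4_nonneg := Pool.Agent.Helper28.IP.e4_nonneg

alias e4_five := Pool.Agent.Helper28.IP.e4_five

alias X_sq := Pool.Agent.Helper8.IP.X_sq

alias pure_energy := Pool.Agent.Helper74.IP.pure_energy

alias PF_isSymm := Pool.Agent.Helper12.IP.PF_isSymm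

alias PF_idem := Pool.Agent.Helper12.IP.PF_idem

alias PF_mem := Pool.Agent.Helper12.IP.PF_mem

alias PF_of_mem := Pool.Agent.Helper12.IP.PF_of_mem

alias PF_Vl := Pool.Agent.Helper12.IP.PF_Vl

alias Rm_Vl := Pool.Agent.Helper12.IP.Rm_Vl

alias Lm_Vl := Pool.Agent.Helper12.IP.Lm_Vl

alias finrank_Vl := Pool.Agent.Helper41.IP.finrank_Vl

alias jucys := Pool.Agent.Helper61.IP.jucys

alias Am_isSymm := Pool.Agent.Helper62.IP.Am_isSymm

alias Am_quad := Pool.Agent.Helper62.IP.Am_quad

alias Am_comm_Rm := Pool.Agent.Helper62.IP.Am_comm_Rm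

alias Am_Fs := Pool.Agent.Helper62.IP.Am_Fs

alias Am_Vl := Pool.Agent.Helper62.IP.Am_Vl

alias Kt_nonneg := Pool.Agent.Helper90.IP.Kt_nonneg

alias Kt_isSymm := Pool.Agent.Helper90.IP.Kt_isSymm

alias Kt_add := Pool.Agent.Helper90.IP.Kt_add

alias Kt_trans := Pool.Agent.Helper90.IP.Kt_trans

alias Kt_row := Pool.Agent.Helper90.IP.Kt_row

alias trace_exp_le := Pool.Agent.Helper38.IP.trace_exp_le

alias exists_proj := Pool.Agent.Helper83.IP.exists_proj

alias card_conjClasses_perm := Pool.Agent.Helper88.IP.card_conjClasses_perm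

alias rep_lemma := Pool.Agent.Helper77.IP.rep_lemma

alias ker_ip := Pool.Agent.Helper75.IP.ker_ip

alias gap_srw := Pool.Agent.Helper76.IP.gap_srw

end Pool.Agent.Helper91.IP
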