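import Pool.Agent.Helper91.IP.L1
import Pool.Agent.Helper91.IP.P.A3
import Pool.Agent.Helper91.IP.P.C3b
import Pool.Agent.Helper91.IP.P.D2
import Pool.Agent.Helper91.IP.P.G1
import Pool.Agent.Helper91.IP.P.E5
import Pool.Agent.Helper91.IP.P.E6
import Pool.Agent.Helper91.IP.P.E9b
import Pool.Agent.Helper91.IP.P.G4

/-!
# Project IP: the statements proved in layer 2
-/

namespace Pool.Agent.Helper91.IP

open Finset Equiv Matrix

variable {V : Type} [Fintype V] [DecidableEq V]

alias octopus := Pool.Agent.Helper30.IP.octopus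

alias level_decomp := Pool.Agent.Helper71.IP.level_decomp

alias complete_energy := Pool.Agent.Helper96.IP.complete_energy

alias tv_Kt := Pool.Agent.Helper87.IP.tv_Kt

alias trace_PF := Pool.Agent.Helper56.IP.trace_PF

alias trace_Kap := Pool.Agent.Helper29.IP.trace_Kap

alias trace_sq := Pool.Agent.Helper64.IP.trace_sq

alias trel_le_tmix := Pool.Agent.Helper53.IP.trel_le_tmix

end Pool.Agent.Helper91.IP
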