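import Pool.Agent.Helper91.IP.L2
import Pool.Agent.Helper91.IP.P.B1
import Pool.Agent.Helper91.IP.P.C4

/-!
# Project IP: the statements proved in layer 3
-/

namespace Pool.Agent.Helper91.IP

open Finset Equiv Matrix

variable {V : Type} [Fintype V] [DecidableEq V]

alias En_kmul_self := Pool.Agent.Helper33.IP.En_kmul_self

alias level_energy := Pool.Agent.Helper45.IP.level_energy

end Pool.Agent.Helper91.IP
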