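import Pool.Agent.Helper91.IP.L4
import Pool.Agent.Helper91.IP.P.C6
import Pool.Agent.Helper91.IP.P.D3

/-!
# Project IP: the statements proved in layer 5
-/

namespace Pool.Agent.Helper91.IP

open Finset Equiv Matrix

variable {V : Type} [Fintype V] [DecidableEq V]

alias level_energy_w := Pool.Agent.Helper39.IP.level_energy_w

alias complete_compare := Pool.Agent.Helper38.IP.complete_compare

end Pool.Agent.Helper91.IP
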