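import Pool.Agent.Helper91.IP.L5
import Pool.Agent.Helper91.IP.P.F1

/-!
# Project IP: the statements proved in layer 6
-/

namespace Pool.Agent.Helper91.IP

open Finset Equiv Matrix

variable {V : Type} [Fintype V] [DecidableEq V]

alias trace_split := Pool.Agent.Helper42.IP.trace_split

end Pool.Agent.Helper91.IP
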